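import Pool.Agent.GC.Base
import Pool.Agent.GC.Series

/-!
The Hilbert series of the exterior algebra modulo a generic cubic form in `n` variables, for
every `n ≥ 3`, up to the value of one odd integer when `n` is congruent to `1` modulo `4`.
-/

set_option autoImplicit false

namespace Pool.Agent.Results.MP_8fad21_al.GenericSeries

open Polynomial Pool.Agent.GC

/-- For every field `K` of characteristic zero and every `n ≥ 3` there is an odd number `c` and
a nonzero polynomial `P` in the coefficients of the cubic forms such that for every cubic form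
`f = ∑ a_{ijk} e_i ∧ e_j ∧ e_k` in `⋀ (K^n)` with `P (a) ≠ 0` the Hilbert series of
`⋀ (K^n) / (f)` is `((1 + t)^n + t^3 L) / (1 + t^3)` with `L = LLc c n`; here `LLc c n` depends
on `c` only if `n = 4 k + 1`, and then it is `c t^(2k-1) (1 + t^3) + (3 t)^(2k) (1 + t)`. -/
theorem result (K : Type*) [Field K] [CharZero K] (n : ℕ) (hn : 3 ≤ n) :
    ∃ c : ℕ, Odd c ∧ ∃ P : MvPolynomial (Set.powersetCard (Fin n) 3) K, P ≠ 0 ∧
      ∀ a : Set.powersetCard (Fin n) 3 → K, MvPolynomial.eval a P ≠ 0 →
        hser K (Fin n → K) n (cubic K (Fin n → K) (fun i => Pi.single i 1) a) * (1 + X ^ 3)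
          = (1 + X) ^ n + X ^ 3 * LLc c n := by
  obtain ⟨c, hc, h⟩ := series_all K (cc_all K) n hn
  exact ⟨c, hc, restate h⟩

end Pool.Agent.Results.MP_8fad21_al.GenericSeries
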